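import Pool.Agent.Work.MP_51da30_lc.Fin

/-!
# MP_51da30_lc : the answer to Q1 is no

There is a model of ZF in which the Boolean prime ideal theorem holds and the countable union
condition fails.

The definitions are in `Pool/Agent/Work/MP_51da30_lc/Defs.lean`.

Sketch of the proof. Let `Γ` be the group of all finite subsets of `ω × ω` (symmetric difference),
and `𝒲` an idempotent ultrafilter on `Γ` (Ellis-Numakura), chosen so that for every `T ∈ 𝒲` and `m`
there are `w, w' ∈ T` which agree below the column `m` and differ on the column `m`. The map
`T ↦ T* = {s : T - s ∈ 𝒲}` is a translation-invariant idempotent Boolean endomorphism of `𝒫(Γ)`;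
its image `B` is a complete Boolean algebra, an equivariant retract of `𝒫(Γ)`. Take the symmetric
submodel of `V^B` given by the translations and the subgroups `Γ_m = {g : g ⊆ [m, ω) × ω}`.

BPI: for a name of a Boolean algebra choose, for every point `s ∈ Γ`, an ultrafilter on the names
of its elements (with respect to the relations whose truth value contains `s`), equivariantly;
this is a `𝒫(Γ)`-valued ultrafilter, and its image under `*` is a `B`-valued ultrafilter.

Not CUC: let `x_n = {j : (n, j) ∈ s}` be the generic reals, and `A_n` the set of all finite
modifications of `x_n`. The family `(A_n)` is in the model and every `A_n` is countable there. If an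
injection `f` of the union into `ω` is fixed by `Γ_m`, and `q` forces `f(x_m) = k`, then by the choice
of `𝒲` there is `g ∈ Γ_m` with nonzero column `m` such that `q` and `g q` are compatible; they force
`f(x_m) = k = f(g x_m)` and `x_m ≠ g x_m`.
-/

namespace Pool.Agent.Results.MP_51da30_lc.BPINotCUC

open BC

theorem result : ∃ (M : Type) (E : M → M → Prop), IsZF E ∧ BPI E ∧ ¬ CUC E :=
  BC.main

end Pool.Agent.Results.MP_51da30_lc.BPINotCUC
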